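import Mathlib
import Pool.Agent.X89.CA6

set_option autoImplicit false

open Metric Complex
open scoped ComplexConjugate

namespace Pool.Agent.Results.MP_c4ccc8_an.CampbellConjecture

/-- `F ∈ 𝒰_α`: analytic and locally univalent in the unit disk, normalised, of order at most `α`. -/
def InU (α : ℝ) (F : ℂ → ℂ) : Prop :=
  DifferentiableOn ℂ F (ball 0 1) ∧ F 0 = 0 ∧ deriv F 0 = 1 ∧
  ∀ z ∈ ball (0 : ℂ) 1, deriv F z ≠ 0 ∧
    ‖-(conj z) + (1 - (‖z‖ : ℂ) ^ 2) * deriv (deriv F) z / (2 * deriv F z)‖ ≤ α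

/-- `f ≺ F` in the unit disk: `f = F ∘ w` with `w` analytic and `|w(z)| ≤ |z|`. -/
def Subordinate (f F : ℂ → ℂ) : Prop :=
  ∃ w : ℂ → ℂ, DifferentiableOn ℂ w (ball 0 1) ∧ (∀ z ∈ ball (0 : ℂ) 1, ‖w z‖ ≤ ‖z‖) ∧
    ∀ z ∈ ball (0 : ℂ) 1, f z = F (w z)

/-- `ρ(α) = α + 1 - √(α² + 2α)`. -/
noncomputable def rho (α : ℝ) : ℝ := α + 1 - √(α ^ 2 + 2 * α)

/-- Campbell's conjecture, for every `α ≥ 1` (in particular for `1 < α < 1.65`). -/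
theorem result (α : ℝ) (hα : 1 ≤ α) (F f : ℂ → ℂ) (hF : InU α F) (hf : Subordinate f F)
    (him : (deriv f 0).im = 0) (hre : 0 ≤ (deriv f 0).re) (z : ℂ) (hz : ‖z‖ < rho α) :
    ‖deriv f z‖ ≤ ‖deriv F z‖ := by
  obtain ⟨w, hw, hwz, hfw⟩ := hf
  exact Pool.Agent.X89.CA.main hα hF hw hwz hfw him hre hz

end Pool.Agent.Results.MP_c4ccc8_an.CampbellConjecture
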